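import Pool.Agent.H95.SqzB

set_option autoImplicit false

open Pool.Agent.H95.Sqz

theorem Pool.Agent.Results.MP_18219f_mp.Additive.result :
    ∀ (a b : ℕ) (A : Mat a) (B : Mat b), IsCov A → IsCov B → G (dsum A B) = G A + G B :=
  fun _ _ _ _ hA hB => additive hA hB
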